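import Pool.Agent.Helper80.Slit.Defs
/-! MODULE CHI (owner: helper28): the polynomials `chi m`.
Newton interpolation `p (x_i) = Σ_{l ≤ i} dd l x p ∏_{r<l} (x_i - x_r)` (`p = p (x_0) + (X - x_0) (p /ₘ (X - x_0))`) gives
`chi_spec` (compare `IPC/Schur`: `newton`, `SG_det`).  Symmetry from `chi_spec` for distinct `x_k`, then continuity.
Degree: in the last variable only the last row of the matrix of `chi` depends on it: `dd (m-1) x p` = value at `x (m-1)` of
an iterated quotient of degree `≤ deg p - (m-1)`, `deg φ_j = 3 (j/2) + j % 2`.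
Recursion: compare `IP/DetB` and `IPC/Schur` (`SS_rec`). -/
namespace IP.Slit
open Finset Real Polynomial

theorem chi_spec (m : ℕ) (x : ℕ → ℝ) : DD m x = Vd m x * chi m x := by sorry
theorem DD_congr {m : ℕ} {x y : ℕ → ℝ} (h : ∀ k < m, x k = y k) : DD m x = DD m y := by sorry
theorem Vd_congr {m : ℕ} {x y : ℕ → ℝ} (h : ∀ k < m, x k = y k) : Vd m x = Vd m y := by sorry
theorem chi_congr {m : ℕ} {x y : ℕ → ℝ} (h : ∀ k < m, x k = y k) : chi m x = chi m y := by sorry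
theorem chi_continuous (m : ℕ) : Continuous (chi m) := by sorry
theorem DD_continuous (m : ℕ) : Continuous (DD m) := by sorry
theorem Vd_continuous (m : ℕ) : Continuous (Vd m) := by sorry
theorem chi_perm (m : ℕ) (e : Equiv.Perm ℕ) (he : ∀ j, m ≤ j → e j = j) (x : ℕ → ℝ) :
    chi m (fun j => x (e j)) = chi m x := by sorry
theorem DD_swap {m i : ℕ} (h : i + 1 < m) (x : ℕ → ℝ) :
    DD m (fun j => x (Equiv.swap i (i + 1) j)) = - DD m x := by sorry
theorem Vd_swap {m i : ℕ} (h : i + 1 < m) (x : ℕ → ℝ) :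
    Vd m (fun j => x (Equiv.swap i (i + 1) j)) = - Vd m x := by sorry
/-- degree `≤ (m-1)/2` in every variable -/
theorem chi_poly (m i : ℕ) (x : ℕ → ℝ) : ∃ P : ℝ[X], P.natDegree ≤ (m - 1) / 2 ∧
    ∀ y, chi m (Function.update x i y) = P.eval y := by sorry
/-- degree `≤ 3 ((m-1)/2) + (m-1) % 2` in every variable -/
theorem DD_poly (m i : ℕ) (x : ℕ → ℝ) : ∃ P : ℝ[X], P.natDegree ≤ 3 * ((m - 1) / 2) + (m - 1) % 2 ∧
    ∀ y, DD m (Function.update x i y) = P.eval y := by sorry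
theorem Vd_poly (m i : ℕ) (x : ℕ → ℝ) : ∃ P : ℝ[X], P.natDegree ≤ m - 1 ∧
    ∀ y, Vd m (Function.update x i y) = P.eval y := by sorry

/-- `x 0`, `x 1` are two roots of the same cubic `t^3 - 3t = c`, the third root is `-(x 0 + x 1)` -/
theorem DD_rec (m : ℕ) (x : ℕ → ℝ) (h : qq (x 0) (x 1) = 0) : DD (m + 2) x =
    (x 1 - x 0) * (∏ k ∈ range m, (x (k + 2) - x 0) * (x (k + 2) - x 1) * (x (k + 2) + x 0 + x 1)) *
      DD m (fun k => x (k + 2)) := by sorry
theorem Vd_rec (m : ℕ) (x : ℕ → ℝ) : Vd (m + 2) x =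
    (x 1 - x 0) * (∏ k ∈ range m, (x (k + 2) - x 0) * (x (k + 2) - x 1)) * Vd m (fun k => x (k + 2)) := by sorry
theorem chi_rec (m : ℕ) (x : ℕ → ℝ) (h : qq (x 0) (x 1) = 0) : chi (m + 2) x =
    (∏ k ∈ range m, (x (k + 2) + x 0 + x 1)) * chi m (fun k => x (k + 2)) := by sorry
/-- the recursion at the entries `i`, `i+1` -/
theorem chi_rec_at {m i : ℕ} (hi : i ≤ m) (x : ℕ → ℝ) (h : qq (x i) (x (i + 1)) = 0) : chi (m + 2) x =
    (∏ k ∈ range m, (rem i x k + x i + x (i + 1))) * chi m (rem i x) := by sorry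

theorem chi_zero (x : ℕ → ℝ) : chi 0 x = 1 := by sorry
theorem chi_one (x : ℕ → ℝ) : chi 1 x = 1 := by sorry
theorem chi_two (x : ℕ → ℝ) : chi 2 x = 1 := by sorry
theorem chi_three (x : ℕ → ℝ) : chi 3 x = x 0 + x 1 + x 2 := by sorry
theorem chi_four (x : ℕ → ℝ) : chi 4 x =
    3 + (x 0 * x 1 + x 0 * x 2 + x 0 * x 3 + x 1 * x 2 + x 1 * x 3 + x 2 * x 3) := by sorry
end IP.Slit
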