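import Pool.Agent.Helper53.Slit.TriDefs
/-! Linearity of the trilinear form (copy of the first part of `Helper53/Slit/Tri`, names `tb_`, without the percolation imports). -/
namespace IP.Slit
open Finset IP

theorem tb_eq_sum (n1 n2 : ℕ) {v1 v2 v : M} {S1 S2 S : Finset St} (h1 : v1.support ⊆ S1)
    (h2 : v2.support ⊆ S2) (h : v.support ⊆ S) :
    tri n1 n2 v1 v2 v = ∑ t1 ∈ S1, ∑ t2 ∈ S2, ∑ σ ∈ S, v1 t1 * v2 t2 * v σ * cf n1 n2 t1 t2 σ := by
  unfold tri
  rw [Finsupp.sum_of_support_subset v1 h1]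
  · refine sum_congr rfl fun t1 _ => ?_
    rw [Finsupp.sum_of_support_subset v2 h2]
    · refine sum_congr rfl fun t2 _ => ?_
      rw [Finsupp.sum_of_support_subset v h]
      intro σ _
      ring
    · intro t2 _
      rw [Finsupp.sum]
      exact sum_eq_zero fun σ _ => by ring
  · intro t1 _
    rw [Finsupp.sum]
    refine sum_eq_zero fun t2 _ => ?_
    rw [Finsupp.sum]
    exact sum_eq_zero fun σ _ => by ring

theorem tb_add1 (n1 n2 : ℕ) (v1 v1' v2 v : M) :
    tri n1 n2 (v1 + v1') v2 v = tri n1 n2 v1 v2 v + tri n1 n2 v1' v2 v := by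
  classical
  have s2 : v2.support ⊆ v2.support := subset_rfl
  have s3 : v.support ⊆ v.support := subset_rfl
  rw [tb_eq_sum n1 n2 (Finsupp.support_add (g₁ := v1) (g₂ := v1')) s2 s3,
    tb_eq_sum n1 n2 (S1 := v1.support ∪ v1'.support) subset_union_left s2 s3,
    tb_eq_sum n1 n2 (S1 := v1.support ∪ v1'.support) subset_union_right s2 s3, ← sum_add_distrib]
  refine sum_congr rfl fun t1 _ => ?_
  rw [← sum_add_distrib]
  refine sum_congr rfl fun t2 _ => ?_
  rw [← sum_add_distrib]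
  refine sum_congr rfl fun σ _ => ?_
  rw [Finsupp.add_apply]
  ring

theorem tb_add2 (n1 n2 : ℕ) (v1 v2 v2' v : M) :
    tri n1 n2 v1 (v2 + v2') v = tri n1 n2 v1 v2 v + tri n1 n2 v1 v2' v := by
  classical
  have s1 : v1.support ⊆ v1.support := subset_rfl
  have s3 : v.support ⊆ v.support := subset_rfl
  rw [tb_eq_sum n1 n2 s1 (Finsupp.support_add (g₁ := v2) (g₂ := v2')) s3,
    tb_eq_sum n1 n2 (S2 := v2.support ∪ v2'.support) s1 subset_union_left s3,
    tb_eq_sum n1 n2 (S2 := v2.support ∪ v2'.support) s1 subset_union_right s3, ← sum_add_distrib]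
  refine sum_congr rfl fun t1 _ => ?_
  rw [← sum_add_distrib]
  refine sum_congr rfl fun t2 _ => ?_
  rw [← sum_add_distrib]
  refine sum_congr rfl fun σ _ => ?_
  rw [Finsupp.add_apply]
  ring

theorem tb_add3 (n1 n2 : ℕ) (v1 v2 v v' : M) :
    tri n1 n2 v1 v2 (v + v') = tri n1 n2 v1 v2 v + tri n1 n2 v1 v2 v' := by
  classical
  have s1 : v1.support ⊆ v1.support := subset_rfl
  have s2 : v2.support ⊆ v2.support := subset_rfl
  rw [tb_eq_sum n1 n2 s1 s2 (Finsupp.support_add (g₁ := v) (g₂ := v')),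
    tb_eq_sum n1 n2 (S := v.support ∪ v'.support) s1 s2 subset_union_left,
    tb_eq_sum n1 n2 (S := v.support ∪ v'.support) s1 s2 subset_union_right, ← sum_add_distrib]
  refine sum_congr rfl fun t1 _ => ?_
  rw [← sum_add_distrib]
  refine sum_congr rfl fun t2 _ => ?_
  rw [← sum_add_distrib]
  refine sum_congr rfl fun σ _ => ?_
  rw [Finsupp.add_apply]
  ring

theorem tb_zero1 (n1 n2 : ℕ) (v2 v : M) : tri n1 n2 0 v2 v = 0 := by
  unfold tri
  rw [Finsupp.sum_zero_index]

theorem tb_zero2 (n1 n2 : ℕ) (v1 v : M) : tri n1 n2 v1 0 v = 0 := by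
  unfold tri
  rw [Finsupp.sum]
  exact sum_eq_zero fun t1 _ => by rw [Finsupp.sum_zero_index]

theorem tb_zero3 (n1 n2 : ℕ) (v1 v2 : M) : tri n1 n2 v1 v2 0 = 0 := by
  unfold tri
  rw [Finsupp.sum]
  refine sum_eq_zero fun t1 _ => ?_
  rw [Finsupp.sum]
  exact sum_eq_zero fun t2 _ => by rw [Finsupp.sum_zero_index]

theorem tb_single (n1 n2 : ℕ) (t1 t2 σ : St) (x1 x2 x : ℝ) :
    tri n1 n2 (Finsupp.single t1 x1) (Finsupp.single t2 x2) (Finsupp.single σ x) =
      x1 * x2 * x * cf n1 n2 t1 t2 σ := by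
  unfold tri
  rw [Finsupp.sum_single_index, Finsupp.sum_single_index, Finsupp.sum_single_index]
  · ring
  · rw [Finsupp.sum]
    exact sum_eq_zero fun σ _ => by ring
  · rw [Finsupp.sum]
    refine sum_eq_zero fun t2 _ => ?_
    rw [Finsupp.sum]
    exact sum_eq_zero fun σ _ => by ring

theorem tb_sum1 {ι : Type*} (n1 n2 : ℕ) (F : Finset ι) (f : ι → M) (v2 v : M) :
    tri n1 n2 (∑ a ∈ F, f a) v2 v = ∑ a ∈ F, tri n1 n2 (f a) v2 v := by
  classical
  induction F using Finset.induction_on with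
  | empty => rw [sum_empty, sum_empty, tb_zero1]
  | insert a F ha ih => rw [sum_insert ha, sum_insert ha, tb_add1, ih]

theorem tb_sum2 {ι : Type*} (n1 n2 : ℕ) (F : Finset ι) (v1 : M) (f : ι → M) (v : M) :
    tri n1 n2 v1 (∑ a ∈ F, f a) v = ∑ a ∈ F, tri n1 n2 v1 (f a) v := by
  classical
  induction F using Finset.induction_on with
  | empty => rw [sum_empty, sum_empty, tb_zero2]
  | insert a F ha ih => rw [sum_insert ha, sum_insert ha, tb_add2, ih]

theorem tb_sum3 {ι : Type*} (n1 n2 : ℕ) (F : Finset ι) (v1 v2 : M) (f : ι → M) :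
    tri n1 n2 v1 v2 (∑ a ∈ F, f a) = ∑ a ∈ F, tri n1 n2 v1 v2 (f a) := by
  classical
  induction F using Finset.induction_on with
  | empty => rw [sum_empty, sum_empty, tb_zero3]
  | insert a F ha ih => rw [sum_insert ha, sum_insert ha, tb_add3, ih]

end IP.Slit
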