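import Pool.Agent.Lead.IP.Recur
import Pool.Agent.Helper80.Slit.TriBase

/-!
SLIT STRIP (project S, TriForm part): DEFINITIONS.  Blueprint: team-store `MP_35f495_h80_triform.md`.

`n = n1+n2+1`; strands `0..2n`; `A = 0..2n1`, tip strand `2n1+1`, `B = 2n1+2..2n`.
`T3 n1 n2 b` = trilinear form of the polynomial vectors: `V n b` below, `V n1` upper left, `V n2` upper right
(upper parameters with the opposite sign).  `TT` = with the power of 4.
`X y = 2 cos 2y`.  All the determinants are functions of `x j = X (b j)`.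
-/

namespace IP.Slit
open Finset Real Polynomial

noncomputable section

/-- `2 cos (2 y)` -/
def X (y : ℝ) : ℝ := 2 * Real.cos (2 * y)

/-- `(x - y^+)(x - y^-)`, `y^±` the other roots of `t^3 - 3t = y^3 - 3y` -/
def qq (x y : ℝ) : ℝ := x ^ 2 + x * y + y ^ 2 - 3

/-- `1, x, c, x c, c^2, ...`, `c = x^3 - 3x`, as polynomials -/
def phiP (j : ℕ) : ℝ[X] := (Polynomial.X ^ 3 - 3 * Polynomial.X) ^ (j / 2) * Polynomial.X ^ (j % 2)

/-- divided difference of the polynomial `p` at the points `x 0, ..., x l` -/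
def dd : ℕ → (ℕ → ℝ) → ℝ[X] → ℝ
  | 0, x, p => p.eval (x 0)
  | l + 1, x, p => dd l (fun k => x (k + 1)) (p /ₘ (Polynomial.X - C (x 0)))

/-- `det [φ_l (x_k)]`, `k, l < m` -/
def DD (m : ℕ) (x : ℕ → ℝ) : ℝ := Matrix.det (Matrix.of fun k l : Fin m => (phiP l).eval (x k))

/-- Vandermonde determinant -/
def Vd (m : ℕ) (x : ℕ → ℝ) : ℝ := ∏ l ∈ range m, ∏ k ∈ range l, (x l - x k)

/-- the quotient `DD / Vd`, a symmetric polynomial -/
def chi (m : ℕ) (x : ℕ → ℝ) : ℝ := Matrix.det (Matrix.of fun k l : Fin m => dd k x (phiP l))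

/-- remove the entry `j` -/
def del (j : ℕ) (x : ℕ → ℝ) : ℕ → ℝ := fun k => if k < j then x k else x (k + 1)

/-- put `y` in front -/
def cs (y : ℝ) (x : ℕ → ℝ) : ℕ → ℝ := fun k => if k = 0 then y else x (k - 1)

/-- the right side of the inhomogeneous formula; `x` = all the variables, `w` = the root `2 cos (2 b_t - 2π/3)` of
the tip variable -/
def NF (n1 n2 : ℕ) (w : ℝ) (x : ℕ → ℝ) : ℝ :=
  ∑ j ∈ range (2 * n1 + 1), (-1) ^ j * (x j - w) * (∏ k ∈ (range (2 * n1 + 1)).erase j, qq (x j) (x k)) *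
    DD (2 * n1) (del j x) * chi (2 * n2 + 2) (cs (x j) (fun k => x (k + (2 * n1 + 2)))) *
    chi (2 * (n1 + n2 + 1)) (del j x)

/-- the trilinear form of the polynomial vectors -/
def T3 (n1 n2 : ℕ) (b : ℕ → ℝ) : ℝ :=
  tri n1 n2 (V n1 (fun j => - b j)) (V n2 (fun j => - b (j + (2 * n1 + 2)))) (V (n1 + n2 + 1) b)

def TT (n1 n2 : ℕ) (b : ℕ → ℝ) : ℝ := 4 ^ ((n1 + n2 + 1) ^ 2 + n1 ^ 2 + n2 ^ 2) * T3 n1 n2 b

/-- `2 cos (2 b_t - 2π/3)`, `t = 2n1+1` the tip strand -/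
def ww (n1 : ℕ) (b : ℕ → ℝ) : ℝ := 2 * Real.cos (2 * b (2 * n1 + 1) - 2 * π / 3)

/-- left side minus right side of the formula -/
def DF (n1 n2 : ℕ) (b : ℕ → ℝ) : ℝ :=
  TT n1 n2 b * Vd (2 * n1 + 1) (fun j => X (b j)) - NF n1 n2 (ww n1 b) (fun j => X (b j))

end
end IP.Slit
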