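import Pool.Agent.Helper80.Slit.Chi
/-! MODULE NFA (owner: helper28 / helper25): symmetry and degrees of `NF`.
Swap of two neighbours `i`, `i+1` of `A`: the terms `j = i` and `j = i+1` are exchanged (sign `(-1)^j`), in the others `DD`
changes sign and `chi` does not.  Degrees in `x_i`, `i ∈ A`: term `j ≠ i`: `2 + deg DD (2n1) + deg chi (2n)`, term `j = i`:
`1 + 4n1 + deg chi (2n2+2)`. -/
namespace IP.Slit
open Finset Real Polynomial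

theorem NF_congr {n1 n2 : ℕ} {w : ℝ} {x y : ℕ → ℝ} (h : ∀ k < 2 * (n1 + n2 + 1) + 1, x k = y k) :
    NF n1 n2 w x = NF n1 n2 w y := by sorry
theorem NF_continuous (n1 n2 : ℕ) : Continuous (fun p : ℝ × (ℕ → ℝ) => NF n1 n2 p.1 p.2) := by sorry
theorem NF_swA {n1 n2 i : ℕ} (h : i + 1 ≤ 2 * n1) (w : ℝ) (x : ℕ → ℝ) :
    NF n1 n2 w (fun j => x (Equiv.swap i (i + 1) j)) = - NF n1 n2 w x := by sorry
theorem NF_swB {n1 n2 i : ℕ} (h : 2 * n1 + 2 ≤ i) (h2 : i + 1 ≤ 2 * (n1 + n2 + 1)) (w : ℝ) (x : ℕ → ℝ) :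
    NF n1 n2 w (fun j => x (Equiv.swap i (i + 1) j)) = NF n1 n2 w x := by sorry
theorem NF_polyA {n1 n2 i : ℕ} (h : i ≤ 2 * n1) (w : ℝ) (x : ℕ → ℝ) : ∃ P : ℝ[X],
    P.natDegree ≤ (n1 + n2 + 1) + 3 * n1 ∧ ∀ y, NF n1 n2 w (Function.update x i y) = P.eval y := by sorry
theorem NF_polyB {n1 n2 i : ℕ} (h : 2 * n1 + 2 ≤ i) (w : ℝ) (x : ℕ → ℝ) : ∃ P : ℝ[X],
    P.natDegree ≤ (n1 + n2 + 1) + n2 ∧ ∀ y, NF n1 n2 w (Function.update x i y) = P.eval y := by sorry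
end IP.Slit
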