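import Pool.Agent.Helper80.Slit.Chi
/-! MODULE NFB (owner: helper25): recursions of `NF`.
`NF_recA`: the terms `j = 0, 1` vanish (`qq = 0`); for `j ≥ 2`: `qq (x j) (x 0) = (x j - x 1) (x j + x 0 + x 1)` and
`qq (x j) (x 1) = (x j - x 0) (x j + x 0 + x 1)` because `qq (x 0) (x 1) = 0`; `DD_rec`, `chi_rec`, `chi_rec_at`.
`NF_recB`: termwise `chi_rec_at`.  `NF_zero`: `n1 = n2 = 0`. -/
namespace IP.Slit
open Finset Real Polynomial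

theorem NF_recA (n1 n2 : ℕ) (w : ℝ) (x : ℕ → ℝ) (h : qq (x 0) (x 1) = 0) : NF (n1 + 1) n2 w x =
    (x 1 - x 0) * (∏ k ∈ range (2 * n1 + 1), (x (k + 2) - x 0) * (x (k + 2) - x 1) * (x (k + 2) + x 0 + x 1)) *
      (∏ k ∈ range (2 * (n1 + n2 + 1) + 1), (x (k + 2) + x 0 + x 1)) * NF n1 n2 w (fun k => x (k + 2)) := by sorry
theorem NF_recB {n1 n2 i : ℕ} (hi : i < 2 * n2 + 2) (w : ℝ) (x : ℕ → ℝ)
    (h : qq (x (i + (2 * n1 + 2))) (x (i + 1 + (2 * n1 + 2))) = 0) : NF n1 (n2 + 1) w x =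
    (∏ k ∈ range (2 * n2 + 1), (rem (i + (2 * n1 + 2)) x (k + (2 * n1 + 2)) + x (i + (2 * n1 + 2)) +
      x (i + 1 + (2 * n1 + 2)))) *
      (∏ k ∈ range (2 * (n1 + n2 + 1) + 1), (rem (i + (2 * n1 + 2)) x k + x (i + (2 * n1 + 2)) +
      x (i + 1 + (2 * n1 + 2)))) * NF n1 n2 w (rem (i + (2 * n1 + 2)) x) := by sorry
theorem NF_zero (w : ℝ) (x : ℕ → ℝ) : NF 0 0 w x = x 0 - w := by sorry
end IP.Slit
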