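import Pool.Agent.Helper80.Slit.TriB
/-! MODULE T3B (owner: helper55): recursions of `T3` (copy `K_one_sw`, `NN_rec` of `IP/NformA`; `V_rec`, `De_V`, `zf_s_mul_s`:
`4 s (x-c) s (-x-c) = 2 cos 2x - 2 cos (2c - 2π/3)`, and `X (b i) + X (b i + π/3) = - 2 cos (2 b i - 2π/3)`). -/
namespace IP.Slit
open Finset Real

theorem TT_recA (n1 n2 : ℕ) (b : ℕ → ℝ) (hb : b 1 = b 0 + π / 3) : TT (n1 + 1) n2 b =
    (∏ k ∈ range (2 * n1 + 1), (X (b (k + 2)) + X (b 0) + X (b 1))) *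
      (∏ k ∈ range (2 * (n1 + n2 + 1) + 1), (X (b (k + 2)) + X (b 0) + X (b 1))) *
      TT n1 n2 (fun j => b (j + 2)) := by sorry
theorem TT_recB {n1 n2 i : ℕ} (h : i < 2 * n2 + 2) (b : ℕ → ℝ)
    (hb : b (i + 1 + (2 * n1 + 2)) = b (i + (2 * n1 + 2)) + π / 3) : TT n1 (n2 + 1) b =
    (∏ k ∈ range (2 * n2 + 1), (X (rem (i + (2 * n1 + 2)) b (k + (2 * n1 + 2))) + X (b (i + (2 * n1 + 2))) +
      X (b (i + 1 + (2 * n1 + 2))))) *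
      (∏ k ∈ range (2 * (n1 + n2 + 1) + 1), (X (rem (i + (2 * n1 + 2)) b k) + X (b (i + (2 * n1 + 2))) +
      X (b (i + 1 + (2 * n1 + 2))))) *
      TT n1 n2 (rem (i + (2 * n1 + 2)) b) := by sorry
theorem TT_zero (b : ℕ → ℝ) : TT 0 0 b = X (b 0) - ww 0 b := by sorry
end IP.Slit
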