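import Pool.Agent.Helper80.Slit.T3A
import Pool.Agent.Helper80.Slit.T3B
import Pool.Agent.Helper80.Slit.NFA
import Pool.Agent.Helper80.Slit.NFB
import Pool.Agent.Lead.IP.TrigC
/-! MODULE GEN (owner: helper76 / helper80): the two interpolation steps (copy `IP/Zform`, `IP/NformB`).
`DF` in `b 0`: `TP (2n + 6 n1)`, zeros `± b k ± π/3` and `± b k`, `1 ≤ k ≤ 2 n1` (`DF_recA`, `DF_swA`: antisymmetric, `DF_ngA`);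
`12 n1 > 2n + 6 n1` iff `2 n1 > n2 + 1`.  `DF` in `b (2n)`: `TP (2n + 2 n2)`, zeros `± b k ± π/3`, `k ∈ B`, `8 n2`.
First for generic other variables, then by continuity. -/
namespace IP.Slit
open Finset Real Polynomial

theorem X_ng (y : ℝ) : X (-y) = X y := by sorry
/-- a polynomial of degree `≤ m` in `X y` is a trigonometric polynomial of degree `2m` -/
theorem TP_X {m : ℕ} {P : ℝ[X]} (h : P.natDegree ≤ m) : TP (2 * m) (fun y => P.eval (X y)) := by sorry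
theorem qq_X (y : ℝ) : qq (X y) (X (y + π / 3)) = 0 := by sorry
theorem DF_congr {n1 n2 : ℕ} {b b' : ℕ → ℝ} (h : ∀ j < 2 * (n1 + n2 + 1) + 1, b j = b' j) :
    DF n1 n2 b = DF n1 n2 b' := by sorry
theorem DF_continuous (n1 n2 : ℕ) : Continuous (DF n1 n2) := by sorry
theorem DF_TPA {n1 n2 i : ℕ} (h : i ≤ 2 * n1) (b : ℕ → ℝ) :
    TP (2 * (n1 + n2 + 1) + 6 * n1) (fun y => DF n1 n2 (Function.update b i y)) := by sorry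
theorem DF_TPB {n1 n2 i : ℕ} (h : 2 * n1 + 2 ≤ i) (h2 : i ≤ 2 * (n1 + n2 + 1)) (b : ℕ → ℝ) :
    TP (2 * (n1 + n2 + 1) + 2 * n2) (fun y => DF n1 n2 (Function.update b i y)) := by sorry
theorem DF_swA {n1 n2 i : ℕ} (h : i + 1 ≤ 2 * n1) (b : ℕ → ℝ) : DF n1 n2 (sw i b) = - DF n1 n2 b := by sorry
theorem DF_swB {n1 n2 i : ℕ} (h : 2 * n1 + 2 ≤ i) (h2 : i + 1 ≤ 2 * (n1 + n2 + 1)) (b : ℕ → ℝ) :
    DF n1 n2 (sw i b) = DF n1 n2 b := by sorry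
theorem DF_ngA {n1 n2 i : ℕ} (h : i ≤ 2 * n1) (b : ℕ → ℝ) : DF n1 n2 (ng i b) = DF n1 n2 b := by sorry
theorem DF_ngB {n1 n2 i : ℕ} (h : 2 * n1 + 2 ≤ i) (h2 : i ≤ 2 * (n1 + n2 + 1)) (b : ℕ → ℝ) :
    DF n1 n2 (ng i b) = DF n1 n2 b := by sorry
theorem DF_recA {n1 n2 : ℕ} (ih : ∀ b, DF n1 n2 b = 0) (b : ℕ → ℝ) (hb : b 1 = b 0 + π / 3) :
    DF (n1 + 1) n2 b = 0 := by sorry
theorem DF_recB {n1 n2 i : ℕ} (ih : ∀ b, DF n1 n2 b = 0) (h : i < 2 * n2 + 2) (b : ℕ → ℝ)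
    (hb : b (i + 1 + (2 * n1 + 2)) = b (i + (2 * n1 + 2)) + π / 3) : DF n1 (n2 + 1) b = 0 := by sorry
theorem DF_00 (b : ℕ → ℝ) : DF 0 0 b = 0 := by sorry

/-- all the roots in `b 0`: `b 0 = ± b k ± π/3` and `b 0 = ± b k`, `1 ≤ k ≤ 2 n1` -/
theorem DF_rootA {n1 n2 : ℕ} (ih : ∀ b, DF n1 n2 b = 0) {k : ℕ} (h1 : 1 ≤ k) (h2 : k ≤ 2 * n1 + 2) (b : ℕ → ℝ)
    (h : ∃ e f : ℝ, (e = 1 ∨ e = -1) ∧ (f = 0 ∨ f = π / 3 ∨ f = -(π / 3)) ∧ b 0 = e * b k + f) :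
    DF (n1 + 1) n2 b = 0 := by sorry
/-- all the roots in `b (2n)`, `n = n1+n2+2`: `± b k ± π/3`, `k ∈ B` -/
theorem DF_rootB {n1 n2 : ℕ} (ih : ∀ b, DF n1 n2 b = 0) {k : ℕ} (h1 : 2 * n1 + 2 ≤ k)
    (h2 : k < 2 * (n1 + n2 + 2)) (b : ℕ → ℝ)
    (h : ∃ e f : ℝ, (e = 1 ∨ e = -1) ∧ (f = π / 3 ∨ f = -(π / 3)) ∧ b (2 * (n1 + n2 + 2)) = e * b k + f) :
    DF n1 (n2 + 1) b = 0 := by sorry

theorem stepA {n1 n2 : ℕ} (h : n2 + 1 < 2 * (n1 + 1)) (ih : ∀ b, DF n1 n2 b = 0) :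
    ∀ b, DF (n1 + 1) n2 b = 0 := by sorry
theorem stepB {n1 n2 : ℕ} (h : n1 + 1 < 2 * (n2 + 1)) (ih : ∀ b, DF n1 n2 b = 0) :
    ∀ b, DF n1 (n2 + 1) b = 0 := by sorry
end IP.Slit
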