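import Pool.Agent.Helper80.Slit.T3A
import Pool.Agent.Helper80.Slit.T3B
import Pool.Agent.Helper80.Slit.NFA
import Pool.Agent.Helper80.Slit.NFB
import Pool.Agent.Lead.IP.NformB
/-! MODULE ONE (owner: helper80): the case `n1 = n2 = 1` at the points `b 2 = b 3 - π/3`, `b 4 = b 1 + π/3`
(computation in the blueprint, section 5). -/
namespace IP.Slit
open Finset Real Polynomial

theorem one_conj (y : ℝ) : X (y + π / 3) = 2 * Real.cos (2 * y + 2 * π / 3) := by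
  unfold X
  congr 2
  ring

theorem one_sum3 (y : ℝ) : X y + X (y + π / 3) = - (2 * Real.cos (2 * y - 2 * π / 3)) := by
  rw [one_conj]
  unfold X
  have h : Real.cos (2 * π / 3) = - (1 / 2) := by
    rw [show 2 * π / 3 = π - π / 3 by ring, Real.cos_pi_sub, Real.cos_pi_div_three]
  rw [Real.cos_add, Real.cos_sub, h]
  ring

theorem one_qq (y : ℝ) : qq (X y) (X (y + π / 3)) = 0 := by
  rw [one_conj]
  unfold X qq
  have h : Real.cos (2 * π / 3) = - (1 / 2) := by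
    rw [show 2 * π / 3 = π - π / 3 by ring, Real.cos_pi_sub, Real.cos_pi_div_three]
  have h' : Real.sin (2 * π / 3) ^ 2 = 3 / 4 := by
    have := Real.sin_sq_add_cos_sq (2 * π / 3)
    rw [h] at this
    linarith
  have h2 := Real.sin_sq_add_cos_sq (2 * y)
  rw [Real.cos_add, h]
  linear_combination (4 * Real.sin (2 * y) ^ 2) * h' + 3 * h2

/-- one factor of `K` -/
theorem one_ss (x a : ℝ) : 4 * (s (x - a) * s (-x - a)) = X x + X a + X (a + π / 3) := by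
  rw [nb_four_ss, add_assoc, one_sum3]
  unfold X
  ring

/-- the three one-column vectors -/
theorem one_top (c : ℕ → ℝ) : 4 * V 1 c (top 1) = X (c 0) + X (c 1) + X (c 1 + π / 3) := by
  rw [V_top, ← one_ss]
  unfold f0
  simp [prod_range_succ]

theorem one_bot (c : ℕ → ℝ) : 4 * V 1 c (bot 1) = X (c 2) - X (c 1 + π / 3) := by
  have h1 : Z 1 c = V 1 c (bot 1) + V 1 c (top 1) := nb_tot_one (V_Sup 1 c)
  have h2 := nb_Z_one c
  have h3 := one_top c
  have h4 : 4 * Z 1 c = X (c 0) + X (c 1) + X (c 2) := h2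
  linarith

theorem one_vec (c : ℕ → ℝ) : V 1 c = Finsupp.single (bot 1) (V 1 c (bot 1)) +
    Finsupp.single (top 1) (V 1 c (top 1)) := by
  classical
  ext σ
  rw [Finsupp.add_apply, Finsupp.single_apply, Finsupp.single_apply]
  by_cases h1 : bot 1 = σ
  · subst h1
    rw [if_pos rfl, if_neg nb_bot_ne_top.symm, add_zero]
  · rw [if_neg h1, zero_add]
    by_cases h2 : top 1 = σ
    · subst h2
      rw [if_pos rfl]
    · rw [if_neg h2]
      refine vs_mem_Sup.1 (V_Sup 1 c) σ ?_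
      intro h
      rcases nb_W_one h with h' | h'
      · exact h1 h'.symm
      · exact h2 h'.symm

/-! ### the crossing indicator -/

theorem one_top01 : (top 1) 0 1 := Or.inr (Or.inl (by simp))
theorem one_s02 (σ : St) : (ins 2 (ins 1 σ)) 0 2 := by
  show (insS 1 (Setoid.comap (coll 0) σ)) 0 2
  refine Or.inr ⟨by omega, by omega, ?_⟩
  rw [Setoid.comap_rel]
  have h1 : coll 0 (unskip 1 0) = 0 := rfl
  have h2 : coll 0 (unskip 1 2) = 0 := rfl
  rw [h1, h2]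
theorem one_s23 {σ : St} (h : σ 0 1) : (ins 2 (ins 1 σ)) 2 3 := by
  show (insS 1 (Setoid.comap (coll 0) σ)) 2 3
  refine Or.inr ⟨by omega, by omega, ?_⟩
  rw [Setoid.comap_rel]
  have h1 : coll 0 (unskip 1 2) = 0 := rfl
  have h2 : coll 0 (unskip 1 3) = 1 := rfl
  rw [h1, h2]
  exact h

theorem one_le {a b c S : St} (h1 : ∀ x y, a x y → S x y) (h2 : ∀ x y, b x y → S x y)
    (h3 : ∀ x y, c x y → S x y) {x y : ℕ} (h : (a ⊔ b ⊔ c) x y) : S x y := by
  have hl : a ⊔ b ⊔ c ≤ S := by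
    refine sup_le (sup_le ?_ ?_) ?_
    · rw [Setoid.le_def]; intro x y; exact h1 x y
    · rw [Setoid.le_def]; intro x y; exact h2 x y
    · rw [Setoid.le_def]; intro x y; exact h3 x y
  rw [Setoid.le_def] at hl
  exact hl h

theorem one_l {a b c : St} {x y : ℕ} (h : a x y) : (a ⊔ b ⊔ c) x y := by
  have hl : a ≤ a ⊔ b ⊔ c := le_sup_of_le_left le_sup_left
  rw [Setoid.le_def] at hl
  exact hl h
theorem one_m {a b c : St} {x y : ℕ} (h : b x y) : (a ⊔ b ⊔ c) x y := by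
  have hl : b ≤ a ⊔ b ⊔ c := le_sup_of_le_left le_sup_right
  rw [Setoid.le_def] at hl
  exact hl h
theorem one_r {a b c : St} {x y : ℕ} (h : c x y) : (a ⊔ b ⊔ c) x y := by
  have hl : c ≤ a ⊔ b ⊔ c := le_sup_right
  rw [Setoid.le_def] at hl
  exact hl h

/-- only the site `1` is separated -/
def one_S1 : St where
  r x y := x = y ∨ (x ≠ 1 ∧ y ≠ 1)
  iseqv := ⟨fun _ => Or.inl rfl, fun {x y} h => by omega, fun {x y z} h h' => by omega⟩

/-- the sites `< 3` against the sites `≥ 3` -/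
def one_S2 : St where
  r x y := x < 3 ↔ y < 3
  iseqv := ⟨fun _ => Iff.rfl, fun {x y} h => h.symm, fun {x y z} h h' => h.trans h'⟩

theorem one_cf_bot (t2 σ : St) : cf 1 1 (bot 1) t2 (ins 2 (ins 1 σ)) = 0 := by
  unfold cf
  rw [if_neg]
  intro h
  have h1 : one_S1 1 (1 + 1 + 1) := by
    refine one_le (S := one_S1) ?_ ?_ ?_ h
    · intro x y hxy
      rcases (show x = y ∨ _ from hxy) with h' | ⟨h1, h2, _⟩
      · exact Or.inl h'
      · exact Or.inr ⟨h1, h2⟩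
    · intro x y hxy
      rcases (show x = y ∨ (x ≤ 1 ∧ y ≤ 1 ∧ (bot 1) x y) from hxy) with h' | ⟨h1, h2, h3⟩
      · exact Or.inl h'
      · rcases (show x = y ∨ (1 ≤ x ∧ 1 ≤ y) from h3) with h4 | h4
        · exact Or.inl h4
        · exact Or.inl (by omega)
    · intro x y hxy
      rcases (show x = y ∨ (1 < x ∧ 1 < y ∧ _) from hxy) with h' | ⟨h1, h2, _⟩
      · exact Or.inl h'
      · exact Or.inr ⟨by omega, by omega⟩
  rcases (show 1 = 1 + 1 + 1 ∨ (1 ≠ 1 ∧ 1 + 1 + 1 ≠ 1) from h1) with h2 | h2 <;> omega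

theorem one_cf_bb : cf 1 1 (top 1) (bot 1) (ins 2 (ins 1 (bot 1))) = 0 := by
  unfold cf
  rw [if_neg]
  intro h
  have h1 : one_S2 1 (1 + 1 + 1) := by
    refine one_le (S := one_S2) ?_ ?_ ?_ h
    · intro x y hxy
      show x < 3 ↔ y < 3
      rcases (show x = y ∨ (x ≠ 1 ∧ y ≠ 1 ∧ (bot 1) (coll 0 (unskip 1 x)) (coll 0 (unskip 1 y))) from hxy) with
        h' | ⟨h1, h2, h3⟩
      · rw [h']
      · have hc : ∀ x, x ≠ 1 → (coll 0 (unskip 1 x) = 0 ↔ x < 3) := by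
          intro x hx
          unfold coll unskip
          split_ifs <;> omega
        have e1 := hc x h1
        have e2 := hc y h2
        rcases (show coll 0 (unskip 1 x) = coll 0 (unskip 1 y) ∨
          (1 ≤ coll 0 (unskip 1 x) ∧ 1 ≤ coll 0 (unskip 1 y)) from h3) with h4 | h4
        · rw [← e1, ← e2, h4]
        · rw [← e1, ← e2]
          constructor <;> intro h5 <;> omega
    · intro x y hxy
      show x < 3 ↔ y < 3
      rcases (show x = y ∨ (x ≤ 1 ∧ y ≤ 1 ∧ _) from hxy) with h' | ⟨h1, h2, h3⟩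
      · rw [h']
      · omega
    · intro x y hxy
      show x < 3 ↔ y < 3
      rcases (show x = y ∨ (1 < x ∧ 1 < y ∧ (bot 1) (x - 1 - 1) (y - 1 - 1)) from hxy) with h' | ⟨h1, h2, h3⟩
      · rw [h']
      · rcases (show x - 1 - 1 = y - 1 - 1 ∨ (1 ≤ x - 1 - 1 ∧ 1 ≤ y - 1 - 1) from h3) with h4 | h4 <;> omega
  have h2 : (1 < 3 ↔ 1 + 1 + 1 < 3) := h1
  omega

theorem one_cf_t {t2 σ : St} (h : t2 0 1 ∨ σ 0 1) : cf 1 1 (top 1) t2 (ins 2 (ins 1 σ)) = 1 := by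
  unfold cf
  rw [if_pos]
  show (ins 2 (ins 1 σ) ⊔ liftL 1 (top 1) ⊔ liftR 1 t2) 1 3
  set S := ins 2 (ins 1 σ) ⊔ liftL 1 (top 1) ⊔ liftR 1 t2 with hS
  have h10 : S 1 0 := one_m (Or.inr ⟨by omega, by omega, (top 1).symm one_top01⟩)
  have h02 : S 0 2 := one_l (one_s02 σ)
  have h23 : S 2 3 := by
    rcases h with h | h
    · exact one_r (Or.inr ⟨by omega, by omega, h⟩)
    · exact one_l (one_s23 h)
  exact S.trans h10 (S.trans h02 h23)

theorem one_In (i : ℕ) (σ : St) (x : ℝ) : In i (Finsupp.single σ x) = Finsupp.single (ins i σ) x := by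
  unfold In
  rw [Finsupp.lmapDomain_apply, Finsupp.mapDomain_single]

theorem one_tri_gen (p1 q1 p2 q2 p q : ℝ) :
    tri 1 1 (Finsupp.single (bot 1) p1 + Finsupp.single (top 1) q1)
      (Finsupp.single (bot 1) p2 + Finsupp.single (top 1) q2)
      (In 2 (In 1 (Finsupp.single (bot 1) p + Finsupp.single (top 1) q))) =
    q1 * ((p2 + q2) * (p + q) - p2 * p) := by
  rw [map_add, map_add, one_In, one_In, one_In, one_In, tb_add1, tb_add2, tb_add2, tb_add3, tb_add3, tb_add3,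
    tb_add3]
  simp only [tb_single]
  rw [one_cf_bot, one_cf_bot, one_cf_bot, one_cf_bot, one_cf_bb, one_cf_t (Or.inl one_top01),
    one_cf_t (Or.inl one_top01), one_cf_t (Or.inr one_top01)]
  ring

/-- the value of the trilinear form -/
theorem one_tri (c1 c2 c : ℕ → ℝ) : tri 1 1 (V 1 c1) (V 1 c2) (In 2 (In 1 (V 1 c))) =
    V 1 c1 (top 1) * ((V 1 c2 (bot 1) + V 1 c2 (top 1)) * (V 1 c (bot 1) + V 1 c (top 1)) -
      V 1 c2 (bot 1) * V 1 c (bot 1)) := by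
  rw [← one_tri_gen (V 1 c1 (bot 1)), ← one_vec c1, ← one_vec c2, ← one_vec c]

theorem one_KK (n : ℕ) (x : ℝ) (c : ℕ → ℝ) : 4 ^ (2 * n + 1) * KK n x c =
    ∏ j ∈ range (2 * n + 1), (X (c j) + X x + X (x + π / 3)) := by
  unfold KK
  have h : (4 : ℝ) ^ (2 * n + 1) = ∏ _j ∈ range (2 * n + 1), (4 : ℝ) := by
    rw [prod_const, card_range]
  rw [h, ← prod_mul_distrib]
  exact prod_congr rfl fun j _ => one_ss _ _

theorem one_X_neg (y : ℝ) : X (-y) = X y := by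
  unfold X
  rw [mul_neg, Real.cos_neg]

theorem one_X_neg' (y : ℝ) : X (-y + π / 3) = - X y - X (y + π / 3) := by
  have := one_sum3 y
  have h : X (-y + π / 3) = 2 * Real.cos (2 * y - 2 * π / 3) := by
    unfold X
    rw [← Real.cos_neg]
    congr 2
    ring
  linarith

theorem one_T3 (b : ℕ → ℝ) (h1 : b 3 = b 2 + π / 3) (h2 : b 4 = b 1 + π / 3) :
    T3 1 1 b = K 3 2 b * (K 2 1 (rem 2 b) * (V 1 (fun j => - b j) (top 1) *
      ((V 1 (fun j => - b (j + 4)) (bot 1) + V 1 (fun j => - b (j + 4)) (top 1)) *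
        (V 1 (rem 1 (rem 2 b)) (bot 1) + V 1 (rem 1 (rem 2 b)) (top 1)) -
          V 1 (fun j => - b (j + 4)) (bot 1) * V 1 (rem 1 (rem 2 b)) (bot 1)))) := by
  have e1 : V 3 b = K 3 2 b • In 2 (V 2 (rem 2 b)) := V_rec (n := 2) (i := 2) (by omega) b h1
  have c2 : rem 2 b 2 = b 4 := rfl
  have c1 : rem 2 b 1 = b 1 := rfl
  have e2 : V 2 (rem 2 b) = K 2 1 (rem 2 b) • In 1 (V 1 (rem 1 (rem 2 b))) :=
    V_rec (n := 1) (i := 1) (by omega) (rem 2 b) (by
      rw [show 1 + 1 = 2 from rfl, c2, c1, h2])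
  rw [← one_tri, ← tri_smul3, ← tri_smul3, ← map_smul, ← e2, ← e1]
  rfl

/-- the value of `TT` -/
theorem TT_one (b : ℕ → ℝ) (h1 : b 3 = b 2 + π / 3) (h2 : b 4 = b 1 + π / 3) : TT 1 1 b =
    ((X (b 0) + X (b 2) + X (b 3)) * (X (b 1) + X (b 2) + X (b 3)) * (X (b 4) + X (b 2) + X (b 3)) *
      (X (b 5) + X (b 2) + X (b 3)) * (X (b 6) + X (b 2) + X (b 3))) *
    ((X (b 0) + X (b 1) + X (b 4)) * (X (b 5) + X (b 1) + X (b 4)) * (X (b 6) + X (b 1) + X (b 4))) *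
    (X (b 0) - X (b 4)) *
    (3 + (X (b 0) * X (b 4) + X (b 0) * X (b 5) + X (b 0) * X (b 6) + X (b 4) * X (b 5) + X (b 4) * X (b 6) +
      X (b 5) * X (b 6))) := by
  have c0 : rem 2 b 0 = b 0 := rfl
  have c1 : rem 2 b 1 = b 1 := rfl
  have c2 : rem 2 b 2 = b 4 := rfl
  have c3 : rem 2 b 3 = b 5 := rfl
  have c4 : rem 2 b 4 = b 6 := rfl
  have d0 : rem 1 (rem 2 b) 0 = b 0 := rfl
  have d1 : rem 1 (rem 2 b) 1 = b 5 := rfl
  have d2 : rem 1 (rem 2 b) 2 = b 6 := rfl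
  have k1 : 4 ^ 5 * K 3 2 b = (X (b 0) + X (b 2) + X (b 3)) * (X (b 1) + X (b 2) + X (b 3)) *
      (X (b 4) + X (b 2) + X (b 3)) * (X (b 5) + X (b 2) + X (b 3)) * (X (b 6) + X (b 2) + X (b 3)) := by
    rw [h1, K_eq (n := 2) (i := 2) (by omega) b, show 5 = 2 * 2 + 1 from rfl, one_KK,
      show 2 * 2 + 1 = 5 from rfl, prod_range_succ, prod_range_succ, prod_range_succ, prod_range_succ,
      prod_range_succ, prod_range_zero, one_mul, c0, c1, c2, c3, c4]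
  have k2 : 4 ^ 3 * K 2 1 (rem 2 b) = (X (b 0) + X (b 1) + X (b 4)) * (X (b 5) + X (b 1) + X (b 4)) *
      (X (b 6) + X (b 1) + X (b 4)) := by
    have hk := one_KK 1 (b 1) (rem 1 (rem 2 b))
    rw [show 2 * 1 + 1 = 3 from rfl, prod_range_succ, prod_range_succ, prod_range_succ, prod_range_zero, one_mul,
      d0, d1, d2] at hk
    rw [h2, K_eq (n := 1) (i := 1) (by omega) (rem 2 b), c1, hk]
  have a1 : 4 * V 1 (fun j => - b j) (top 1) = X (b 0) - X (b 4) := by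
    rw [one_top, h2]
    have u0 := one_X_neg (b 0)
    have u1 := one_X_neg (b 1)
    have u2 := one_X_neg' (b 1)
    linarith
  have a2 : 4 * V 1 (fun j => - b (j + 4)) (top 1) = X (b 4) - X (b 5 + π / 3) := by
    rw [one_top]
    have u0 : X (-b (0 + 4)) = X (b 4) := one_X_neg (b 4)
    have u1 : X (-b (1 + 4)) = X (b 5) := one_X_neg (b 5)
    have u2 : X (-b (1 + 4) + π / 3) = - X (b 5) - X (b 5 + π / 3) := one_X_neg' (b 5)
    linarith
  have a3 : 4 * V 1 (fun j => - b (j + 4)) (bot 1) = X (b 6) + X (b 5) + X (b 5 + π / 3) := by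
    rw [one_bot]
    have u0 : X (-b (2 + 4)) = X (b 6) := one_X_neg (b 6)
    have u2 : X (-b (1 + 4) + π / 3) = - X (b 5) - X (b 5 + π / 3) := one_X_neg' (b 5)
    linarith
  have a4 : 4 * V 1 (rem 1 (rem 2 b)) (top 1) = X (b 0) + X (b 5) + X (b 5 + π / 3) := by
    rw [one_top, d0, d1]
  have a5 : 4 * V 1 (rem 1 (rem 2 b)) (bot 1) = X (b 6) - X (b 5 + π / 3) := by
    rw [one_bot, d1, d2]
  have q1 := one_qq (b 5)
  have key : ∀ κ1 κ2 α β2 τ2 β τ : ℝ,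
      4 ^ ((1 + 1 + 1) ^ 2 + 1 ^ 2 + 1 ^ 2) * (κ1 * (κ2 * (α * ((β2 + τ2) * (β + τ) - β2 * β)))) =
      (4 ^ 5 * κ1) * (4 ^ 3 * κ2) * (4 * α) * ((4 * β2 + 4 * τ2) * (4 * β + 4 * τ) - (4 * β2) * (4 * β)) := by
    intro κ1 κ2 α β2 τ2 β τ
    ring
  have fin : (X (b 6) + X (b 5) + X (b 5 + π / 3) + (X (b 4) - X (b 5 + π / 3))) *
      (X (b 6) - X (b 5 + π / 3) + (X (b 0) + X (b 5) + X (b 5 + π / 3))) -
      (X (b 6) + X (b 5) + X (b 5 + π / 3)) * (X (b 6) - X (b 5 + π / 3)) =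
      3 + (X (b 0) * X (b 4) + X (b 0) * X (b 5) + X (b 0) * X (b 6) + X (b 4) * X (b 5) + X (b 4) * X (b 6) +
      X (b 5) * X (b 6)) := by
    unfold qq at q1
    linear_combination q1
  unfold TT
  rw [one_T3 b h1 h2, key, k1, k2, a1, a2, a3, a4, a5, fin]

theorem NF_one_a (x : ℕ → ℝ) (h1 : qq (x 2) (x 3) = 0) : chi 6 (del 0 x) =
    ((x 1 + x 2 + x 3) * (x 4 + x 2 + x 3) * (x 5 + x 2 + x 3) * (x 6 + x 2 + x 3)) *
      (3 + (x 1 * x 4 + x 1 * x 5 + x 1 * x 6 + x 4 * x 5 + x 4 * x 6 + x 5 * x 6)) := by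
  have a1 : del 0 x 1 = x 2 := rfl
  have a2 : del 0 x 2 = x 3 := rfl
  have r0 : rem 1 (del 0 x) 0 = x 1 := rfl
  have r1 : rem 1 (del 0 x) 1 = x 4 := rfl
  have r2 : rem 1 (del 0 x) 2 = x 5 := rfl
  have r3 : rem 1 (del 0 x) 3 = x 6 := rfl
  have h := chi_rec_at (m := 4) (i := 1) (by omega) (del 0 x) (by
    rw [show 1 + 1 = 2 from rfl, a1, a2]
    exact h1)
  rw [show 4 + 2 = 6 from rfl, show 1 + 1 = 2 from rfl, a1, a2, chi_four, r0, r1, r2, r3,
    prod_range_succ, prod_range_succ, prod_range_succ, prod_range_succ, prod_range_zero, r0, r1, r2, r3,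
    one_mul] at h
  exact h

theorem NF_one_b (x : ℕ → ℝ) (h1 : qq (x 2) (x 3) = 0) : chi 6 (del 1 x) =
    ((x 0 + x 2 + x 3) * (x 4 + x 2 + x 3) * (x 5 + x 2 + x 3) * (x 6 + x 2 + x 3)) *
      (3 + (x 0 * x 4 + x 0 * x 5 + x 0 * x 6 + x 4 * x 5 + x 4 * x 6 + x 5 * x 6)) := by
  have a1 : del 1 x 1 = x 2 := rfl
  have a2 : del 1 x 2 = x 3 := rfl
  have r0 : rem 1 (del 1 x) 0 = x 0 := rfl
  have r1 : rem 1 (del 1 x) 1 = x 4 := rfl
  have r2 : rem 1 (del 1 x) 2 = x 5 := rfl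
  have r3 : rem 1 (del 1 x) 3 = x 6 := rfl
  have h := chi_rec_at (m := 4) (i := 1) (by omega) (del 1 x) (by
    rw [show 1 + 1 = 2 from rfl, a1, a2]
    exact h1)
  rw [show 4 + 2 = 6 from rfl, show 1 + 1 = 2 from rfl, a1, a2, chi_four, r0, r1, r2, r3,
    prod_range_succ, prod_range_succ, prod_range_succ, prod_range_succ, prod_range_zero, r0, r1, r2, r3,
    one_mul] at h
  exact h

theorem NF_one_c (y : ℝ) (x : ℕ → ℝ) : chi 4 (cs y (fun k => x (k + 4))) =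
      3 + (y * x 4 + y * x 5 + y * x 6 + x 4 * x 5 + x 4 * x 6 + x 5 * x 6) := by
  have r0 : cs y (fun k => x (k + 4)) 0 = y := rfl
  have r1 : cs y (fun k => x (k + 4)) 1 = x 4 := rfl
  have r2 : cs y (fun k => x (k + 4)) 2 = x 5 := rfl
  have r3 : cs y (fun k => x (k + 4)) 3 = x 6 := rfl
  rw [chi_four, r0, r1, r2, r3]

theorem NF_one_d (w : ℝ) (x : ℕ → ℝ) : NF 1 1 w x =
    (x 0 - w) * (qq (x 0) (x 1) * qq (x 0) (x 2)) * (x 2 - x 1) * chi 4 (cs (x 0) (fun k => x (k + 4))) *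
      chi 6 (del 0 x) -
    (x 1 - w) * (qq (x 1) (x 0) * qq (x 1) (x 2)) * (x 2 - x 0) * chi 4 (cs (x 1) (fun k => x (k + 4))) *
      chi 6 (del 1 x) +
    (x 2 - w) * (qq (x 2) (x 0) * qq (x 2) (x 1)) * (x 1 - x 0) * chi 4 (cs (x 2) (fun k => x (k + 4))) *
      chi 6 (del 2 x) := by
  have dd2 : ∀ y : ℕ → ℝ, DD 2 y = y 1 - y 0 := by
    intro y
    rw [chi_spec, chi_two, mul_one]
    unfold Vd
    simp [prod_range_succ]
  have e0 : (range 3).erase 0 = {1, 2} := by decide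
  have e1 : (range 3).erase 1 = {0, 2} := by decide
  have e2 : (range 3).erase 2 = {0, 1} := by decide
  unfold NF
  rw [show 2 * 1 + 1 = 3 from rfl, show 2 * 1 + 2 = 4 from rfl, show 2 * (1 + 1 + 1) = 6 from rfl,
    show 2 * 1 = 2 from rfl, sum_range_succ, sum_range_succ, sum_range_succ, sum_range_zero, e0, e1, e2,
    prod_pair (by omega), prod_pair (by omega), prod_pair (by omega), dd2, dd2, dd2,
    show del 0 x 1 = x 2 from rfl, show del 0 x 0 = x 1 from rfl, show del 1 x 1 = x 2 from rfl,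
    show del 1 x 0 = x 0 from rfl, show del 2 x 1 = x 1 from rfl, show del 2 x 0 = x 0 from rfl]
  ring

/-- the value of `NF`; `w = x 2` -/
theorem NF_one (x : ℕ → ℝ) (h1 : qq (x 2) (x 3) = 0) (h2 : qq (x 1) (x 4) = 0) : NF 1 1 (x 2) x =
    ((x 0 + x 2 + x 3) * (x 1 + x 2 + x 3) * (x 4 + x 2 + x 3) * (x 5 + x 2 + x 3) * (x 6 + x 2 + x 3)) *
    ((x 0 + x 1 + x 4) * (x 5 + x 1 + x 4) * (x 6 + x 1 + x 4)) * (x 0 - x 4) *
    (3 + (x 0 * x 4 + x 0 * x 5 + x 0 * x 6 + x 4 * x 5 + x 4 * x 6 + x 5 * x 6)) * Vd 3 x := by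
  have f1 : ∀ a, qq a (x 1) = (a - x 4) * (a + x 1 + x 4) := by
    intro a
    unfold qq at h2 ⊢
    linear_combination h2
  have f2 : ∀ a, qq a (x 2) = (a - x 3) * (a + x 2 + x 3) := by
    intro a
    unfold qq at h1 ⊢
    linear_combination h1
  have c4 : 3 + (x 1 * x 4 + x 1 * x 5 + x 1 * x 6 + x 4 * x 5 + x 4 * x 6 + x 5 * x 6) =
      (x 5 + x 1 + x 4) * (x 6 + x 1 + x 4) := by
    unfold qq at h2
    linear_combination -h2
  have v3 : Vd 3 x = (x 1 - x 0) * ((x 2 - x 0) * (x 2 - x 1)) := by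
    unfold Vd
    simp [prod_range_succ]
  have s10 : qq (x 1) (x 0) = qq (x 0) (x 1) := by
    unfold qq
    ring
  rw [NF_one_d, NF_one_a x h1, NF_one_b x h1, NF_one_c, NF_one_c, s10, f1 (x 0), f2 (x 0), f2 (x 1), c4, v3,
    sub_self, zero_mul, zero_mul, zero_mul, zero_mul, add_zero]
  generalize 3 + (x 0 * x 4 + x 0 * x 5 + x 0 * x 6 + x 4 * x 5 + x 4 * x 6 + x 5 * x 6) = Q
  generalize x 5 + x 1 + x 4 = Q5
  generalize x 6 + x 1 + x 4 = Q6
  generalize x 0 + x 1 + x 4 = Q0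
  generalize x 4 + x 2 + x 3 = R4
  generalize x 5 + x 2 + x 3 = R5
  generalize x 6 + x 2 + x 3 = R6
  generalize x 1 + x 2 + x 3 = R1
  generalize x 0 + x 2 + x 3 = R0
  ring

theorem DF_point (b : ℕ → ℝ) (h1 : b 3 = b 2 + π / 3) (h2 : b 4 = b 1 + π / 3) : DF 1 1 b = 0 := by
  have hw : ww 1 b = X (b 2) := by
    unfold ww X
    rw [show 2 * 1 + 1 = 3 by norm_num, h1]
    congr 2
    ring
  unfold DF
  rw [hw, TT_one b h1 h2, NF_one (fun j => X (b j)) (by rw [h1]; exact one_qq _) (by rw [h2]; exact one_qq _)]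
  rw [show 2 * 1 + 1 = 3 by norm_num, sub_self]
end IP.Slit
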