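import Pool.Agent.Helper80.Slit.TriA
import Pool.Agent.Helper80.Slit.Chi
/-! MODULE T3A (owner: helper15): symmetry, evenness, degrees of `T3` (copy `IP/NformA`: `NN_sum`, `NN_TP_pos`, `NN_sw_mul`,
`ss_Sep`, `NN_sw`, `NN_ng`, `NN_continuous`; `V_sw`, `unitarity`, `V_ngL`, `V_ngR`).
`V n1 (-b)` depends on `A` only, `V n2 (-b (· + 2n1+2))` on `B` only. -/
namespace IP.Slit
open Finset Real

theorem T3_congr {n1 n2 : ℕ} {b b' : ℕ → ℝ} (h : ∀ j < 2 * (n1 + n2 + 1) + 1, b j = b' j) :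
    T3 n1 n2 b = T3 n1 n2 b' := by sorry
theorem T3_continuous (n1 n2 : ℕ) : Continuous (T3 n1 n2) := by sorry
theorem T3_TPA {n1 n2 i : ℕ} (h : i ≤ 2 * n1) (b : ℕ → ℝ) :
    TP (2 * (n1 + n2 + 1) + 2 * n1) (fun y => T3 n1 n2 (Function.update b i y)) := by sorry
theorem T3_TPB {n1 n2 i : ℕ} (h : 2 * n1 + 2 ≤ i) (h2 : i ≤ 2 * (n1 + n2 + 1)) (b : ℕ → ℝ) :
    TP (2 * (n1 + n2 + 1) + 2 * n2) (fun y => T3 n1 n2 (Function.update b i y)) := by sorry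
/-- in the tip variable -/
theorem T3_TPt (n1 n2 : ℕ) (b : ℕ → ℝ) :
    TP (2 * (n1 + n2 + 1)) (fun y => T3 n1 n2 (Function.update b (2 * n1 + 1) y)) := by sorry
theorem T3_swA {n1 n2 i : ℕ} (h : i + 1 ≤ 2 * n1) (b : ℕ → ℝ) : T3 n1 n2 (sw i b) = T3 n1 n2 b := by sorry
theorem T3_swB {n1 n2 i : ℕ} (h : 2 * n1 + 2 ≤ i) (h2 : i + 1 ≤ 2 * (n1 + n2 + 1)) (b : ℕ → ℝ) :
    T3 n1 n2 (sw i b) = T3 n1 n2 b := by sorry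
theorem T3_ngA {n1 n2 i : ℕ} (h : i ≤ 2 * n1) (b : ℕ → ℝ) : T3 n1 n2 (ng i b) = T3 n1 n2 b := by sorry
theorem T3_ngB {n1 n2 i : ℕ} (h : 2 * n1 + 2 ≤ i) (h2 : i ≤ 2 * (n1 + n2 + 1)) (b : ℕ → ℝ) :
    T3 n1 n2 (ng i b) = T3 n1 n2 b := by sorry
end IP.Slit
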