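import Pool.Agent.Helper80.Slit.Defs
import Pool.Agent.Lead.IP.HullA
/-! MODULE TRIA (owner: helper19): the generators are self-adjoint for `tri` (copy `hull_E`, `hull_Rt` of `IP/HullA`;
`ha_detach_sup`, `liftL n1 (detach k t) = detach k (liftL n1 t)` (`k ≤ n1`), `liftR n1 (detach k t) = detach (k+n1+1) (liftR n1 t)`,
`join` likewise). -/
namespace IP.Slit
open Finset Real

theorem tri_smul1 (n1 n2 : ℕ) (c : ℝ) (v1 v2 v : M) : tri n1 n2 (c • v1) v2 v = c * tri n1 n2 v1 v2 v := by sorry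
theorem tri_smul2 (n1 n2 : ℕ) (c : ℝ) (v1 v2 v : M) : tri n1 n2 v1 (c • v2) v = c * tri n1 n2 v1 v2 v := by sorry
theorem tri_smul3 (n1 n2 : ℕ) (c : ℝ) (v1 v2 v : M) : tri n1 n2 v1 v2 (c • v) = c * tri n1 n2 v1 v2 v := by sorry
theorem tri_EA {n1 n2 i : ℕ} (h : i < 2 * n1) (v1 v2 v : M) :
    tri n1 n2 (E i v1) v2 v = tri n1 n2 v1 v2 (E i v) := by sorry
theorem tri_EB {n1 n2 i : ℕ} (h : i < 2 * n2) (v1 v2 v : M) :
    tri n1 n2 v1 (E i v2) v = tri n1 n2 v1 v2 (E (i + (2 * n1 + 2)) v) := by sorry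
theorem tri_RtA {n1 n2 i : ℕ} (h : i < 2 * n1) (u : ℝ) (v1 v2 v : M) :
    tri n1 n2 (Rt i u v1) v2 v = tri n1 n2 v1 v2 (Rt i u v) := by sorry
theorem tri_RtB {n1 n2 i : ℕ} (h : i < 2 * n2) (u : ℝ) (v1 v2 v : M) :
    tri n1 n2 v1 (Rt i u v2) v = tri n1 n2 v1 v2 (Rt (i + (2 * n1 + 2)) u v) := by sorry
end IP.Slit
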