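import Pool.Agent.Helper80.Slit.TriA
/-! MODULE TRIB (owner: helper33): an arc of the lower strip closes two strands of an upper strip (copy `hull_In`).
`i = 2k`: `ins = insS k`, the site `k` is a singleton below, so it can be removed from the upper state
(`comap (skip k)`); `i = 2k+1`: `ins = comap (coll k)`, the sites `k`, `k+1` are identified.
`comap (skip k) (liftL (n1+1) t) = liftL n1 (comap (skip k) t)` for `k ≤ n1`, `comap (skip k) (liftR (n1+1) t) = liftR n1 t`, etc. -/
namespace IP.Slit
open Finset Real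

theorem tri_InA {n1 n2 i : ℕ} (h : i < 2 * n1 + 2) (v1 v2 v : M) :
    tri (n1 + 1) n2 v1 v2 (In i v) = tri n1 n2 (De i v1) v2 v := by sorry
theorem tri_InB {n1 n2 i : ℕ} (h : i < 2 * n2 + 2) (v1 v2 v : M) :
    tri n1 (n2 + 1) v1 v2 (In (i + (2 * n1 + 2)) v) = tri n1 n2 v1 (De i v2) v := by sorry
end IP.Slit
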