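import Pool.Agent.Helper80.Slit.Gen
import Pool.Agent.Helper80.Slit.One
/-! MODULE TRIFORM (owner: helper80): `DF 1 1 = 0` (one extra zero, starting from `DF_point`) and the
induction. -/
namespace IP.Slit
open Finset Real Polynomial

theorem tf_sin_ne {x : ℝ} (h : x ≠ 0) (h1 : -π < x) (h2 : x < π) : Real.sin x ≠ 0 := by
  rw [Ne, Real.sin_eq_zero_iff_of_lt_of_lt h1 h2]
  exact h

theorem DF_01 (b : ℕ → ℝ) : DF 0 1 b = 0 := stepB (by norm_num) DF_00 b
theorem DF_10 (b : ℕ → ℝ) : DF 1 0 b = 0 := stepA (by norm_num) DF_00 b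

theorem tf_sw_ne {i j : ℕ} (h1 : j ≠ i) (h2 : j ≠ i + 1) (b : ℕ → ℝ) : sw i b j = b j := by
  unfold sw
  rw [Equiv.swap_apply_of_ne_of_ne h1 h2]

theorem tf_sw_left (i : ℕ) (b : ℕ → ℝ) : sw i b i = b (i + 1) := by
  unfold sw
  rw [Equiv.swap_apply_left]

theorem tf_sw_right (i : ℕ) (b : ℕ → ℝ) : sw i b (i + 1) = b i := by
  unfold sw
  rw [Equiv.swap_apply_right]

/-- the starting point, with the strands `0`, `2` and `4`, `6` exchanged -/
theorem DF_point' (b : ℕ → ℝ) (h1 : b 3 = b 0 + π / 3) (h2 : b 6 = b 1 + π / 3) : DF 1 1 b = 0 := by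
  set c1 := sw 0 b with hc1
  set c2 := sw 1 c1 with hc2
  set c3 := sw 0 c2 with hc3
  set c4 := sw 4 c3 with hc4
  set c5 := sw 5 c4 with hc5
  set c6 := sw 4 c5 with hc6
  have e1 : DF 1 1 c1 = - DF 1 1 b := DF_swA (by norm_num) b
  have e2 : DF 1 1 c2 = - DF 1 1 c1 := DF_swA (by norm_num) c1
  have e3 : DF 1 1 c3 = - DF 1 1 c2 := DF_swA (by norm_num) c2
  have e4 : DF 1 1 c4 = DF 1 1 c3 := DF_swB (by norm_num) (by norm_num) c3
  have e5 : DF 1 1 c5 = DF 1 1 c4 := DF_swB (by norm_num) (by norm_num) c4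
  have e6 : DF 1 1 c6 = DF 1 1 c5 := DF_swB (by norm_num) (by norm_num) c5
  -- the coordinates `1, 2, 3, 4` of `c6`
  have v3 : c6 3 = b 3 := by
    rw [hc6, tf_sw_ne (by omega) (by omega), hc5, tf_sw_ne (by omega) (by omega), hc4,
      tf_sw_ne (by omega) (by omega), hc3, tf_sw_ne (by omega) (by omega), hc2,
      tf_sw_ne (by omega) (by omega), hc1, tf_sw_ne (by omega) (by omega)]
  have v2 : c6 2 = b 0 := by
    rw [hc6, tf_sw_ne (by omega) (by omega), hc5, tf_sw_ne (by omega) (by omega), hc4,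
      tf_sw_ne (by omega) (by omega), hc3, tf_sw_ne (by omega) (by omega), hc2,
      show (2 : ℕ) = 1 + 1 from rfl, tf_sw_right, hc1, show (1 : ℕ) = 0 + 1 from rfl, tf_sw_right]
  have v1 : c6 1 = b 1 := by
    rw [hc6, tf_sw_ne (by omega) (by omega), hc5, tf_sw_ne (by omega) (by omega), hc4,
      tf_sw_ne (by omega) (by omega), hc3]
    have : sw 0 c2 (0 + 1) = c2 0 := tf_sw_right 0 c2
    rw [zero_add] at this
    rw [this, hc2, tf_sw_ne (by omega) (by omega), hc1, tf_sw_left]
  have v4 : c6 4 = b 6 := by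
    rw [hc6, tf_sw_left, hc5, tf_sw_left, hc4]
    show sw 4 c3 6 = b 6
    rw [tf_sw_ne (by omega) (by omega), hc3, tf_sw_ne (by omega) (by omega), hc2,
      tf_sw_ne (by omega) (by omega), hc1, tf_sw_ne (by omega) (by omega)]
  have h := DF_point c6 (by rw [v3, v2, h1]) (by rw [v4, v1, h2])
  linarith

/-- the known roots in `b 0` -/
noncomputable def tf_g (p q : ℝ) : Fin 12 → ℝ :=
  ![-q - π / 3, -p - π / 3, p - π / 3, q - π / 3, -q, -p, p, q, -q + π / 3, -p + π / 3, p + π / 3, q + π / 3]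

theorem tf_g_mono {p q : ℝ} (h0 : 0 < p) (h1 : p < q) (h2 : q < π / 12) : StrictMono (tf_g p q) := by
  have hpi := Real.pi_pos
  rw [Fin.strictMono_iff_lt_succ]
  intro i
  fin_cases i <;> simp [tf_g] <;> linarith

theorem tf_g_bd {p q : ℝ} (h0 : 0 < p) (h1 : p < q) (h2 : q < π / 12) (i : Fin 12) :
    -(π / 2) < tf_g p q i ∧ tf_g p q i < π / 2 := by
  have hpi := Real.pi_pos
  fin_cases i <;> simp [tf_g] <;> constructor <;> linarith

/-- first move: the coordinate `0` -/
theorem tf_stepA {b : ℕ → ℝ} (h0 : 0 < b 1) (h1 : b 1 < b 2) (h2 : b 2 < π / 12) (h6 : b 6 = b 1 + π / 3)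
    (h3 : ∀ i, Real.sin (b 3 - π / 3 - tf_g (b 1) (b 2) i) ≠ 0) : DF 1 1 b = 0 := by
  classical
  have hinj : Function.Injective (tf_g (b 1) (b 2)) := (tf_g_mono h0 h1 h2).injective
  have hbd := tf_g_bd h0 h1 h2
  have hTP : TP 12 (fun y => DF 1 1 (Function.update b 0 y)) := DF_TPA (n1 := 1) (n2 := 1) (i := 0) (by norm_num) b
  have hy : b 3 - π / 3 ∉ univ.image (tf_g (b 1) (b 2)) := by
    intro hm
    obtain ⟨i, _, hi⟩ := mem_image.mp hm
    apply h3 i
    rw [hi, sub_self, Real.sin_zero]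
  have hcard : 12 < (insert (b 3 - π / 3) (univ.image (tf_g (b 1) (b 2)))).card := by
    rw [card_insert_of_notMem hy, card_image_of_injective _ hinj, card_univ, Fintype.card_fin]
    norm_num
  have hall := hTP.eq_zero _ hcard
    (by
      intro x hx y hy' hxy
      rcases mem_insert.mp hx with rfl | hx
      · rcases mem_insert.mp hy' with rfl | hy'
        · exact absurd rfl hxy
        · obtain ⟨i, _, rfl⟩ := mem_image.mp hy'
          exact h3 i
      · obtain ⟨i, _, rfl⟩ := mem_image.mp hx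
        rcases mem_insert.mp hy' with rfl | hy'
        · rw [← neg_sub, Real.sin_neg]
          exact neg_ne_zero.mpr (h3 i)
        · obtain ⟨j, _, rfl⟩ := mem_image.mp hy'
          have hi := hbd i
          have hj := hbd j
          exact tf_sin_ne (sub_ne_zero.mpr hxy) (by linarith) (by linarith))
    (by
      intro x hx
      rcases mem_insert.mp hx with rfl | hx
      · refine DF_point' _ ?_ ?_
        · rw [Function.update_self, Function.update_of_ne (by norm_num)]
          ring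
        · rw [Function.update_of_ne (by norm_num), Function.update_of_ne (by norm_num), h6]
      · obtain ⟨i, _, rfl⟩ := mem_image.mp hx
        have key : ∀ k, 1 ≤ k → k ≤ 2 → ∀ y, (∃ e f : ℝ, (e = 1 ∨ e = -1) ∧
            (f = 0 ∨ f = π / 3 ∨ f = -(π / 3)) ∧ y = e * b k + f) → DF 1 1 (Function.update b 0 y) = 0 := by
          intro k hk1 hk2 y hy''
          refine DF_rootA (n1 := 0) (n2 := 1) DF_01 (k := k) hk1 (by omega) _ ?_
          obtain ⟨e, f, he, hf, hyy⟩ := hy''
          refine ⟨e, f, he, hf, ?_⟩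
          rw [Function.update_self, Function.update_of_ne (by omega), hyy]
        fin_cases i
        · exact key 2 (by omega) (by omega) _ ⟨-1, -(π / 3), Or.inr rfl, Or.inr (Or.inr rfl), by simp [tf_g]; ring⟩
        · exact key 1 (by omega) (by omega) _ ⟨-1, -(π / 3), Or.inr rfl, Or.inr (Or.inr rfl), by simp [tf_g]; ring⟩
        · exact key 1 (by omega) (by omega) _ ⟨1, -(π / 3), Or.inl rfl, Or.inr (Or.inr rfl), by simp [tf_g]; ring⟩
        · exact key 2 (by omega) (by omega) _ ⟨1, -(π / 3), Or.inl rfl, Or.inr (Or.inr rfl), by simp [tf_g]; ring⟩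
        · exact key 2 (by omega) (by omega) _ ⟨-1, 0, Or.inr rfl, Or.inl rfl, by simp [tf_g]⟩
        · exact key 1 (by omega) (by omega) _ ⟨-1, 0, Or.inr rfl, Or.inl rfl, by simp [tf_g]⟩
        · exact key 1 (by omega) (by omega) _ ⟨1, 0, Or.inl rfl, Or.inl rfl, by simp [tf_g]⟩
        · exact key 2 (by omega) (by omega) _ ⟨1, 0, Or.inl rfl, Or.inl rfl, by simp [tf_g]⟩
        · exact key 2 (by omega) (by omega) _ ⟨-1, π / 3, Or.inr rfl, Or.inr (Or.inl rfl), by simp [tf_g]⟩
        · exact key 1 (by omega) (by omega) _ ⟨-1, π / 3, Or.inr rfl, Or.inr (Or.inl rfl), by simp [tf_g]⟩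
        · exact key 1 (by omega) (by omega) _ ⟨1, π / 3, Or.inl rfl, Or.inr (Or.inl rfl), by simp [tf_g]⟩
        · exact key 2 (by omega) (by omega) _ ⟨1, π / 3, Or.inl rfl, Or.inr (Or.inl rfl), by simp [tf_g]⟩)
  have := hall (b 0)
  rwa [Function.update_eq_self] at this

/-- the same for all values of the tip variable -/
theorem tf_stepA' {b : ℕ → ℝ} (h0 : 0 < b 1) (h1 : b 1 < b 2) (h2 : b 2 < π / 12) (h6 : b 6 = b 1 + π / 3) :
    DF 1 1 b = 0 := by
  have hc : Continuous (fun y => DF 1 1 (Function.update b 3 y)) :=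
    (DF_continuous 1 1).comp (continuous_const.update 3 continuous_id)
  have hd : Dense {y : ℝ | ∀ i, Real.sin (y - π / 3 - tf_g (b 1) (b 2) i) ≠ 0} := by
    have hB : (⋃ i, {y : ℝ | Real.sin (y - π / 3 - tf_g (b 1) (b 2) i) = 0}).Countable := by
      refine Set.countable_iUnion fun i => ?_
      refine (Set.countable_range (fun k : ℤ => (k : ℝ) * π + π / 3 + tf_g (b 1) (b 2) i)).mono ?_
      intro y hy
      obtain ⟨k, hk⟩ := Real.sin_eq_zero_iff.mp hy
      refine ⟨k, ?_⟩
      simp only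
      linarith
    refine (hB.dense_compl ℝ).mono ?_
    intro y hy i hi
    exact hy (Set.mem_iUnion.mpr ⟨i, hi⟩)
  have h3 : Set.EqOn (fun y => DF 1 1 (Function.update b 3 y)) (fun _ => (0 : ℝ))
      {y : ℝ | ∀ i, Real.sin (y - π / 3 - tf_g (b 1) (b 2) i) ≠ 0} := by
    intro y hy
    have g1 : Function.update b 3 y 1 = b 1 := Function.update_of_ne (by norm_num) _ _
    have g2 : Function.update b 3 y 2 = b 2 := Function.update_of_ne (by norm_num) _ _
    have g6 : Function.update b 3 y 6 = b 6 := Function.update_of_ne (by norm_num) _ _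
    refine tf_stepA (by rw [g1]; exact h0) (by rw [g1, g2]; exact h1) (by rw [g2]; exact h2)
      (by rw [g1, g6]; exact h6) ?_
    intro i
    rw [g1, g2, Function.update_self]
    exact hy i
  have := congrFun (Continuous.ext_on hd hc continuous_const h3) (b 3)
  rwa [Function.update_eq_self] at this

/-- the known roots in `b 6` -/
noncomputable def tf_h (r p q : ℝ) : Fin 9 → ℝ :=
  ![-q - π / 3, -p - π / 3, p - π / 3, q - π / 3, -q + π / 3, -p + π / 3, r + π / 3, p + π / 3, q + π / 3]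

theorem tf_h_mono {r p q : ℝ} (h : 0 < r) (h0 : r < p) (h1 : p < q) (h2 : q < π / 12) :
    StrictMono (tf_h r p q) := by
  have hpi := Real.pi_pos
  rw [Fin.strictMono_iff_lt_succ]
  intro i
  fin_cases i <;> simp [tf_h] <;> linarith

theorem tf_h_bd {r p q : ℝ} (h : 0 < r) (h0 : r < p) (h1 : p < q) (h2 : q < π / 12) (i : Fin 9) :
    -(π / 2) < tf_h r p q i ∧ tf_h r p q i < π / 2 := by
  have hpi := Real.pi_pos
  fin_cases i <;> simp [tf_h] <;> constructor <;> linarith

/-- second move: the coordinate `6` -/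
theorem tf_stepB {b : ℕ → ℝ} (h0 : 0 < b 1) (h1 : b 1 < b 2) (h2 : b 2 < π / 12) (h4 : b 1 < b 4)
    (h5 : b 4 < b 5) (h5' : b 5 < π / 12) : DF 1 1 b = 0 := by
  classical
  have hinj : Function.Injective (tf_h (b 1) (b 4) (b 5)) := (tf_h_mono h0 h4 h5 h5').injective
  have hbd := tf_h_bd h0 h4 h5 h5'
  have hTP : TP 8 (fun y => DF 1 1 (Function.update b 6 y)) :=
    DF_TPB (n1 := 1) (n2 := 1) (i := 6) (by norm_num) (by norm_num) b
  have hcard : 8 < (univ.image (tf_h (b 1) (b 4) (b 5))).card := by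
    rw [card_image_of_injective _ hinj, card_univ, Fintype.card_fin]
    norm_num
  have hall := hTP.eq_zero _ hcard
    (by
      intro x hx y hy' hxy
      obtain ⟨i, _, rfl⟩ := mem_image.mp hx
      obtain ⟨j, _, rfl⟩ := mem_image.mp hy'
      have hi := hbd i
      have hj := hbd j
      exact tf_sin_ne (sub_ne_zero.mpr hxy) (by linarith) (by linarith))
    (by
      intro x hx
      obtain ⟨i, _, rfl⟩ := mem_image.mp hx
      have key : ∀ k, 4 ≤ k → k ≤ 5 → ∀ y, (∃ e f : ℝ, (e = 1 ∨ e = -1) ∧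
          (f = π / 3 ∨ f = -(π / 3)) ∧ y = e * b k + f) → DF 1 1 (Function.update b 6 y) = 0 := by
        intro k hk1 hk2 y hy''
        refine DF_rootB (n1 := 1) (n2 := 0) DF_10 (k := k) (by omega) (by omega) _ ?_
        obtain ⟨e, f, he, hf, hyy⟩ := hy''
        refine ⟨e, f, he, hf, ?_⟩
        rw [show 2 * (1 + 0 + 2) = 6 by norm_num, Function.update_self, Function.update_of_ne (by omega), hyy]
      fin_cases i
      · exact key 5 (by omega) (by omega) _ ⟨-1, -(π / 3), Or.inr rfl, Or.inr rfl, by simp [tf_h]; ring⟩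
      · exact key 4 (by omega) (by omega) _ ⟨-1, -(π / 3), Or.inr rfl, Or.inr rfl, by simp [tf_h]; ring⟩
      · exact key 4 (by omega) (by omega) _ ⟨1, -(π / 3), Or.inl rfl, Or.inr rfl, by simp [tf_h]; ring⟩
      · exact key 5 (by omega) (by omega) _ ⟨1, -(π / 3), Or.inl rfl, Or.inr rfl, by simp [tf_h]; ring⟩
      · exact key 5 (by omega) (by omega) _ ⟨-1, π / 3, Or.inr rfl, Or.inl rfl, by simp [tf_h]⟩
      · exact key 4 (by omega) (by omega) _ ⟨-1, π / 3, Or.inr rfl, Or.inl rfl, by simp [tf_h]⟩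
      · refine tf_stepA' ?_ ?_ ?_ ?_
        · rw [Function.update_of_ne (by norm_num)]
          exact h0
        · rw [Function.update_of_ne (by norm_num), Function.update_of_ne (by norm_num)]
          exact h1
        · rw [Function.update_of_ne (by norm_num)]
          exact h2
        · rw [Function.update_self, Function.update_of_ne (by norm_num)]
          simp [tf_h]
      · exact key 4 (by omega) (by omega) _ ⟨1, π / 3, Or.inl rfl, Or.inl rfl, by simp [tf_h]⟩
      · exact key 5 (by omega) (by omega) _ ⟨1, π / 3, Or.inl rfl, Or.inl rfl, by simp [tf_h]⟩)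
  have := hall (b 6)
  rwa [Function.update_eq_self] at this

/-- a trigonometric polynomial that vanishes on an interval vanishes -/
theorem tf_TP {m : ℕ} {f : ℝ → ℝ} (hf : TP m f) {a c : ℝ} (h : a < c) (hac : c - a < π)
    (h0 : ∀ x, a < x → x < c → f x = 0) : ∀ x, f x = 0 := by
  classical
  have hpos : 0 < c - a := by linarith
  have hN : (0 : ℝ) < (m : ℝ) + 2 := by positivity
  let g : ℕ → ℝ := fun k => a + (c - a) * (((k : ℝ) + 1) / (m + 2))
  have hg : ∀ k, k ≤ m → a < g k ∧ g k < c := by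
    intro k hk
    have hk' : (k : ℝ) ≤ m := by exact_mod_cast hk
    have h1 : 0 < ((k : ℝ) + 1) / (m + 2) := by positivity
    have h2 : ((k : ℝ) + 1) / (m + 2) < 1 := by
      rw [div_lt_one hN]
      linarith
    constructor
    · have := mul_pos hpos h1
      simp only [g]
      linarith
    · have := mul_lt_mul_of_pos_left h2 hpos
      simp only [g]
      linarith
  have hinj : Function.Injective g := by
    intro k l hkl
    simp only [g] at hkl
    have h1 : (c - a) * (((k : ℝ) + 1) / (m + 2)) = (c - a) * (((l : ℝ) + 1) / (m + 2)) := by linarith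
    have h2 := mul_left_cancel₀ hpos.ne' h1
    rw [div_left_inj' hN.ne'] at h2
    have h3 : (k : ℝ) = l := by linarith
    exact_mod_cast h3
  refine hf.eq_zero ((range (m + 1)).image g) ?_ ?_ ?_
  · rw [card_image_of_injective _ hinj, card_range]
    omega
  · intro x hx y hy hxy
    obtain ⟨k, hk, rfl⟩ := mem_image.mp hx
    obtain ⟨l, hl, rfl⟩ := mem_image.mp hy
    have h1 := hg k (by rw [mem_range] at hk; omega)
    have h2 := hg l (by rw [mem_range] at hl; omega)
    exact tf_sin_ne (sub_ne_zero.mpr hxy) (by linarith) (by linarith)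
  · intro x hx
    obtain ⟨k, hk, rfl⟩ := mem_image.mp hx
    have h1 := hg k (by rw [mem_range] at hk; omega)
    exact h0 _ h1.1 h1.2

theorem DF_11 (b : ℕ → ℝ) : DF 1 1 b = 0 := by
  have hpi := Real.pi_pos
  -- boxes: b 1 in (0, π/48), b 2 in (π/48, π/24), b 4 in (π/48, π/24), b 5 in (π/24, π/16)
  have s1 : ∀ b : ℕ → ℝ, (π / 48 < b 2 ∧ b 2 < π / 24) → (π / 48 < b 4 ∧ b 4 < π / 24) →
      (π / 24 < b 5 ∧ b 5 < π / 16) → DF 1 1 b = 0 := by
    intro b h2 h4 h5
    have := tf_TP (DF_TPA (n1 := 1) (n2 := 1) (i := 1) (by norm_num) b) (a := 0) (c := π / 48) (by linarith)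
      (by linarith) (by
        intro x hx1 hx2
        have g1 : Function.update b 1 x 1 = x := Function.update_self _ _ _
        have g2 : Function.update b 1 x 2 = b 2 := Function.update_of_ne (by norm_num) _ _
        have g4 : Function.update b 1 x 4 = b 4 := Function.update_of_ne (by norm_num) _ _
        have g5 : Function.update b 1 x 5 = b 5 := Function.update_of_ne (by norm_num) _ _
        apply tf_stepB <;> simp only [g1, g2, g4, g5] <;> linarith [h2.1, h2.2, h4.1, h4.2, h5.1, h5.2]) (b 1)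
    rwa [Function.update_eq_self] at this
  have s2 : ∀ b : ℕ → ℝ, (π / 48 < b 4 ∧ b 4 < π / 24) → (π / 24 < b 5 ∧ b 5 < π / 16) → DF 1 1 b = 0 := by
    intro b h4 h5
    have := tf_TP (DF_TPA (n1 := 1) (n2 := 1) (i := 2) (by norm_num) b) (a := π / 48) (c := π / 24) (by linarith)
      (by linarith) (by
        intro x hx1 hx2
        have g2 : Function.update b 2 x 2 = x := Function.update_self _ _ _
        have g4 : Function.update b 2 x 4 = b 4 := Function.update_of_ne (by norm_num) _ _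
        have g5 : Function.update b 2 x 5 = b 5 := Function.update_of_ne (by norm_num) _ _
        exact s1 _ (by rw [g2]; exact ⟨hx1, hx2⟩) (by rw [g4]; exact h4) (by rw [g5]; exact h5)) (b 2)
    rwa [Function.update_eq_self] at this
  have s3 : ∀ b : ℕ → ℝ, (π / 24 < b 5 ∧ b 5 < π / 16) → DF 1 1 b = 0 := by
    intro b h5
    have := tf_TP (DF_TPB (n1 := 1) (n2 := 1) (i := 4) (by norm_num) (by norm_num) b) (a := π / 48) (c := π / 24)
      (by linarith) (by linarith) (by
        intro x hx1 hx2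
        have g4 : Function.update b 4 x 4 = x := Function.update_self _ _ _
        have g5 : Function.update b 4 x 5 = b 5 := Function.update_of_ne (by norm_num) _ _
        exact s2 _ (by rw [g4]; exact ⟨hx1, hx2⟩) (by rw [g5]; exact h5)) (b 4)
    rwa [Function.update_eq_self] at this
  have := tf_TP (DF_TPB (n1 := 1) (n2 := 1) (i := 5) (by norm_num) (by norm_num) b) (a := π / 24) (c := π / 16)
    (by linarith) (by linarith) (by
      intro x hx1 hx2
      have g5 : Function.update b 5 x 5 = x := Function.update_self _ _ _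
      exact s3 _ (by rw [g5]; exact ⟨hx1, hx2⟩)) (b 5)
  rwa [Function.update_eq_self] at this

theorem DF_eq_zero (n1 n2 : ℕ) : ∀ b, DF n1 n2 b = 0 := by
  have key : ∀ N n1 n2 : ℕ, n1 + n2 = N → ∀ b, DF n1 n2 b = 0 := by
    intro N
    induction N with
    | zero =>
      intro n1 n2 h b
      have h1 : n1 = 0 := by omega
      have h2 : n2 = 0 := by omega
      subst h1 h2
      exact DF_00 b
    | succ N ih =>
      intro n1 n2 h
      by_cases hA : 1 ≤ n1 ∧ n2 + 1 < 2 * n1
      · obtain ⟨m, rfl⟩ : ∃ m, n1 = m + 1 := ⟨n1 - 1, by omega⟩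
        exact stepA hA.2 (ih m n2 (by omega))
      · by_cases hB : 1 ≤ n2 ∧ n1 + 1 < 2 * n2
        · obtain ⟨m, rfl⟩ : ∃ m, n2 = m + 1 := ⟨n2 - 1, by omega⟩
          exact stepB hB.2 (ih n1 m (by omega))
        · have h1 : n1 = 1 := by omega
          have h2 : n2 = 1 := by omega
          subst h1 h2
          exact DF_11
  exact key (n1 + n2) n1 n2 rfl

/-- THE INHOMOGENEOUS FORMULA -/
theorem tri_form (n1 n2 : ℕ) (b : ℕ → ℝ) :
    TT n1 n2 b * Vd (2 * n1 + 1) (fun j => X (b j)) = NF n1 n2 (ww n1 b) (fun j => X (b j)) :=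
  sub_eq_zero.mp (DF_eq_zero n1 n2 b)
end IP.Slit
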