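import Pool.Agent.Helper80.Slit.Chi
import Pool.Agent.Lead.IP.Zform
/-! MODULE ZCHI: the total mass.  `sin (2 μ b) = sin (2b) U_{μ-1} (2 cos 2b)`; the `U_{μ_j - 1}` (monic, degree `μ_j - 1`) are
unitriangular combinations of `φ_0, ..., φ_j` (`c U_{m-1} = U_{m+2} + U_{m-4}`), so `Dt m b = (∏ sin 2 b_i) DD m x`,
`Dl m b = (∏ sin 2 b_i) Vd m x`; with `Z_form` for generic `b`, then continuity. -/
namespace IP.Slit
open Finset Real Polynomial

theorem Dt_DD (m : ℕ) (b : ℕ → ℝ) : Dt m b = (∏ i ∈ range m, Real.sin (2 * b i)) * DD m (fun j => X (b j)) := by sorry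
theorem Dl_Vd (m : ℕ) (b : ℕ → ℝ) : Dl m b = (∏ i ∈ range m, Real.sin (2 * b i)) * Vd m (fun j => X (b j)) := by sorry
theorem Z_chi (n : ℕ) (b : ℕ → ℝ) : 4 ^ (n ^ 2) * Z n b = chi (2 * n + 1) (fun j => X (b j)) := by sorry
end IP.Slit
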